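import Pool.Agent.H114.X21.All
import Pool.Agent.H114.X21.P.SQD
import Pool.Graph.R_pool_sql_team_seeded_63374d34.N916.GB.Num

/-!
# The leading-term formula at the prime two for the negative quadratic twists of `X_0(21)` and the
ideal classes of order four

`E_m : y² = x (x + 9 m) (x + 16 m)` is the quadratic twist by `m` of the curve `21a1 = X_0(21)`, which
has no complex multiplication.  The family: ALL negative squarefree `m` such that `3` does not split
and `7` is not inert in `ℚ(√m)` (both may ramify; no condition on the other primes).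

The theorem, with no hypothesis on the rank or on `Ш`: for EVERY `m` of the family
* the equation `W m` is minimal, `#E_m(ℚ)_tors = 4`, and the product of the Tamagawa numbers is
  `4 ^ k`, times `2` if `3 ∤ m`, times `2` if `7 ∤ m`, `k` the number of the primes ramified in `ℚ(√m)`;
* `L(E_m, s)` is entire and the order of `Ш` predicted by the formula (for rank `0`),
  `#E_m(ℚ)_tors² L(E_m, 1) / (Ω Tam)`, is the square `y²` of an integer `y`;
* `y` is odd if and only if `E_m(ℚ)` is finite and `Ш(E_m/ℚ)[2^∞] = 0`, and then the 2-part of the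
  formula holds (`TwoPart m`): `L(E_m, 1) ≠ 0`, and `n L^an = k L^alg` with `k`, `n` odd if
  `Ш(E_m/ℚ)` is finite;
* **`TwoPart m` holds if and only if the class group of `ℚ(√m)` has no element of order four.**

The natural density of `TwoPart` in the family, ordered by `|m|`, is exactly
`η = (1 - 1/2) (1 - 1/4) (1 - 1/8) ⋯ = 0.2887...`, also within every arithmetic progression which meets
the family; the family has natural density `45 / 128` in the negative squarefree integers, so that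
`TwoPart` holds for exactly the proportion `45 / 128 * η = 0.1015...` of all the negative quadratic twists.

Proof.  Analytic side: the values of the sums of the modular symbols of level `21` over the odd
quadratic characters and their parity (library, run 63374d34: N877, N973, N833, N712, N402, N218, N693,
N975, N637, N971, N974 ...); the ambiguous classes and the density: N187, N916 of the same run and the
project FK.  New here (`Pool/Agent/H114/X21`): the exact central values in all the classes, the minimal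
equations, the Frobenius traces, the torsion points, the Tamagawa numbers at all the primes, the local
conditions of the 2-descent, the global linear algebra, the comparison with the class group.
-/

set_option autoImplicit false

open Filter Topology MeasureTheory NumberField

namespace Pool.Agent.Results.MP_92892c_nt.TwistsX21ClassGroup

open Pool.Agent.TH841.SH.D (Sha)

/-! ### the curves -/

/-- the minimal equation of `E_m`, `m` squarefree: `y² + x y = x³ + (25 m - 1)/4 x² + 9 m² x` if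
`m ≡ 1 mod 4` and `y² = x³ + 25 m x² + 144 m² x` if not -/
def W (m : ℤ) : WeierstrassCurve ℤ :=
  if m % 4 = 1 then ⟨1, (25 * m - 1) / 4, 0, 9 * m ^ 2, 0⟩ else ⟨0, 25 * m, 0, 144 * m ^ 2, 0⟩

/-- the curve `E_m` over `ℚ` -/
abbrev E (m : ℤ) : WeierstrassCurve ℚ := (W m).map (Int.castRingHom ℚ)

/-- the family: `m < 0` is squarefree, `3` does not split and `7` is not inert in `ℚ(√m)` -/
def Family (m : ℤ) : Prop :=
  m < 0 ∧ Squarefree m ∧ m % 3 ≠ 1 ∧ (m % 7 = 0 ∨ m % 7 = 1 ∨ m % 7 = 2 ∨ m % 7 = 4)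

/-- the equation is minimal: `Δ ≠ 0` and `|Δ|` is minimal among the integral equations -/
def IsMinimal (V : WeierstrassCurve ℤ) : Prop :=
  V.Δ ≠ 0 ∧ ∀ (V' : WeierstrassCurve ℤ) (C : WeierstrassCurve.VariableChange ℚ),
    C • (V.map (Int.castRingHom ℚ)) = V'.map (Int.castRingHom ℚ) → |V.Δ| ≤ |V'.Δ|

/-- `a_p = p - #{affine points modulo p}` -/
noncomputable def ap (V : WeierstrassCurve ℤ) (p : ℕ) : ℤ :=
  p - (Nat.card {P : ZMod p × ZMod p //
    (V.map (Int.castRingHom (ZMod p))).toAffine.Equation P.1 P.2} : ℕ)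

/-- `Λ` is entire and it is the Hasse-Weil L-function of the minimal equation `V` -/
def IsL (V : WeierstrassCurve ℤ) (Λ : ℂ → ℂ) : Prop :=
  Differentiable ℂ Λ ∧ ∀ s : ℂ, 3 / 2 < s.re →
    HasProd (fun p : Nat.Primes => (1 - (ap V p : ℂ) * ((p : ℕ) : ℂ) ^ (-s) +
      (if ((p : ℕ) : ℤ) ∣ V.Δ then 0 else ((p : ℕ) : ℂ) ^ (1 - 2 * s)))⁻¹) (Λ s)

/-- `4 x³ + b₂ x² + 2 b₄ x + b₆ = (2 y + a₁ x + a₃)²` -/
noncomputable def cubic (V : WeierstrassCurve ℤ) (x : ℝ) : ℝ :=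
  4 * x ^ 3 + V.b₂ * x ^ 2 + 2 * V.b₄ * x + V.b₆

/-- `Ω = ∫_{E(ℝ)} |ω|`, `ω = dx / (2 y + a₁ x + a₃)`; two real points lie over each `x` with
`cubic x > 0` -/
noncomputable def Omega (V : WeierstrassCurve ℤ) : ℝ :=
  ∫ x in {x : ℝ | 0 < cubic V x}, 2 / Real.sqrt (cubic V x)

/-- the reduction of the point `(x, y)` modulo `p` is the singular point -/
def Sing (V : WeierstrassCurve ℤ) (p : ℕ) [Fact p.Prime] (x y : ℚ_[p]) : Prop :=
  ‖x‖ ≤ 1 ∧ ‖y‖ ≤ 1 ∧ ‖V.a₁ * y - (3 * x ^ 2 + 2 * V.a₂ * x + V.a₄)‖ < 1 ∧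
    ‖2 * y + V.a₁ * x + V.a₃‖ < 1

open scoped Classical in
/-- the Tamagawa number `[E(ℚ_p) : E_0(ℚ_p)]`, `E_0(ℚ_p)` the group generated by the points with
nonsingular reduction -/
noncomputable def tam (V : WeierstrassCurve ℤ) (p : ℕ) [Fact p.Prime] : ℕ :=
  (AddSubgroup.closure {P : (V.map (Int.castRingHom ℚ_[p])).toAffine.Point |
    ∀ (x y : ℚ_[p]) (h), P = .some x y h → ¬ Sing V p x y}).index

/-- the product of the Tamagawa numbers over the primes which divide the discriminant -/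
noncomputable def Tam (V : WeierstrassCurve ℤ) : ℕ :=
  ∏ p ∈ V.Δ.natAbs.primeFactors, if h : p.Prime then (haveI := Fact.mk h; tam V p) else 1

/-- the order of the torsion subgroup of `E_m(ℚ)` -/
noncomputable def tors (m : ℤ) : ℕ := Nat.card (AddCommGroup.torsion (E m).toAffine.Point)

/-- `L^an` for rank `0`: the value `l` at `s = 1` divided by `Ω` -/
noncomputable def Lan (m : ℤ) (l : ℂ) : ℂ := l / (Omega (W m) : ℝ)

/-- `L^alg = #Ш Tam / #E_m(ℚ)_tors²` -/
noncomputable def Lalg (m : ℤ) : ℚ := Nat.card (Sha (E m)) * Tam (W m) / (tors m : ℚ) ^ 2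

/-- the order of `Ш(E_m/ℚ)` predicted by the formula for rank `0`: `#E_m(ℚ)_tors² L^an / Tam` -/
noncomputable def anSha (m : ℤ) (l : ℂ) : ℂ := Lan m l * (tors m : ℂ) ^ 2 / (Tam (W m) : ℂ)

/-- `E_m(ℚ)` is finite and the `2`-primary part of `Ш(E_m/ℚ)` is zero -/
def FinSha (m : ℤ) : Prop :=
  Finite (E m).toAffine.Point ∧ ∀ (n : ℕ) (x : Sha (E m)), 2 ^ n • x = 0 → x = 0

/-- the `2`-part of the formula, with `L(E_m, 1) ≠ 0` and no element of order two in `Ш`:
`E_m(ℚ)` is finite, `Ш(E_m/ℚ)[2^∞] = 0`, `L(E_m, 1) ≠ 0`, the predicted order of `Ш` is the square of an odd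
number, and `n L^an = k L^alg` for odd numbers `k`, `n` if `Ш(E_m/ℚ)` is finite -/
def TwoPart (m : ℤ) : Prop :=
  FinSha m ∧ ∃ Λ : ℂ → ℂ, IsL (W m) Λ ∧ Λ 1 ≠ 0 ∧ (∃ y : ℕ, Odd y ∧ anSha m (Λ 1) = (y : ℂ) ^ 2) ∧
    (Finite (Sha (E m)) → ∃ k n : ℕ, Odd k ∧ Odd n ∧ n * Lan m (Λ 1) = k * ((Lalg m : ℚ) : ℂ))

/-- the primes ramified in `ℚ(√m)`, `m` squarefree -/
def R (m : ℤ) : Finset ℕ := (if m % 4 = 1 then m.natAbs else 4 * m.natAbs).primeFactors

/-! ### the densities -/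

open Classical in
/-- the number of the members `m ≥ -X` of the family with the property `P` -/
noncomputable def num (P : ℤ → Prop) (X : ℕ) : ℕ :=
  ((Finset.Icc (-(X : ℤ)) X).filter fun m => Family m ∧ P m).card

open Classical in
/-- the number of the negative squarefree integers `m ≥ -X` -/
noncomputable def neg (X : ℕ) : ℕ :=
  ((Finset.Icc (-(X : ℤ)) X).filter fun m => m < 0 ∧ Squarefree m).card

/-- the constant `(1 - 1/2) (1 - 1/4) (1 - 1/8) ⋯ = 0.2887...` -/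
noncomputable def eta : ℝ := ∏' i : ℕ, (1 - (1 / 2 : ℝ) ^ (i + 1))

section proof

open Pool.Agent.H114.X21 (K21 parts Gm)

lemma k21 {m : ℤ} (h : Family m) : K21 m := ⟨h.1, h.2.1, h.2.2.1, h.2.2.2⟩

lemma tors_eq {m : ℤ} (h : Family m) : tors m = 4 :=
  Pool.Agent.H114.X21.tors_EM parts (k21 h)

lemma tam_eq {m : ℤ} (h : Family m) : Tam (W m) =
    4 ^ (R m).card * (if (3 : ℤ) ∣ m then 1 else 2) * (if (7 : ℤ) ∣ m then 1 else 2) :=
  Pool.Agent.H114.X21.tamProd_eq parts (k21 h)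

lemma fs_iff {m : ℤ} (h : Family m) : FinSha m ↔ Gm m :=
  Pool.Agent.H114.X21.finSha_iff parts (k21 h)

lemma min_W {m : ℤ} (h : Family m) : IsMinimal (W m) := by
  have h := parts.min m h.2.1
  exact h

lemma core {m : ℤ} (hm : Family m) : ∃ Λ : ℂ → ℂ, IsL (W m) Λ ∧
    ∃ y : ℕ, anSha m (Λ 1) = (y : ℂ) ^ 2 ∧ (Odd y ↔ FinSha m) ∧
      (y ≠ 0 → Λ 1 ≠ 0) ∧
      (FinSha m → Finite (Sha (E m)) →
        ∃ k n : ℕ, Odd k ∧ Odd n ∧ n * Lan m (Λ 1) = k * ((Lalg m : ℚ) : ℂ)) := by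
  obtain ⟨hO, f, y, hf, hy, -, hv⟩ := Pool.Agent.H114.X21.main parts (k21 hm)
  have hO' : (0 : ℝ) < Omega (W m) := hO
  have hOC : ((Omega (W m) : ℝ) : ℂ) ≠ 0 := by exact_mod_cast hO'.ne'
  have hv' : f 1 = (((y : ℝ) ^ 2 * (Tam (W m) : ℝ) / 16 * Omega (W m) : ℝ) : ℂ) := hv
  have hy' : Odd y ↔ FinSha m := hy
  have hT0 : (Tam (W m) : ℂ) ≠ 0 := by
    rw [tam_eq hm]
    split_ifs <;> simp
  have ht : (tors m : ℂ) = 4 := by rw [tors_eq hm]; norm_num
  have htq : (tors m : ℚ) = 4 := by rw [tors_eq hm]; norm_num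
  have hLan : Lan m (f 1) = (y : ℂ) ^ 2 * (Tam (W m) : ℂ) / 16 := by
    unfold Lan
    rw [hv', div_eq_iff hOC]
    push_cast
    ring
  have han : anSha m (f 1) = (y : ℂ) ^ 2 := by
    unfold anSha
    rw [hLan, ht]
    field_simp
    norm_num
  refine ⟨f, hf, y, han, hy', fun h => ?_, fun hF hfin => ?_⟩
  · intro h2
    rw [h2] at han
    unfold anSha Lan at han
    rw [zero_div, zero_mul, zero_div] at han
    have h3 : (y : ℂ) = 0 := by
      have := han.symm
      exact pow_eq_zero_iff (two_ne_zero) |>.1 this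
    exact h (by exact_mod_cast h3)
  · refine ⟨y ^ 2, Nat.card (Sha (E m)), ?_, ?_, ?_⟩
    · exact (hy'.2 hF).pow
    · exact Pool.Agent.H114.X21.odd_card fun x hx =>
        hF.2 1 x (by rw [pow_one, two_nsmul]; exact hx)
    · unfold Lalg
      rw [hLan, htq]
      push_cast
      ring

lemma two_iff {m : ℤ} (hm : Family m) : TwoPart m ↔ Gm m := by
  obtain ⟨Λ, hL, y, h2, h3, h5, h6⟩ := core hm
  constructor
  · intro h
    exact (fs_iff hm).1 h.1
  · intro h
    have hF := (fs_iff hm).2 h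
    have hy := h3.2 hF
    refine ⟨hF, Λ, hL, h5 ?_, ⟨y, hy, h2⟩, h6 hF⟩
    rintro rfl
    exact absurd hy (by decide)

lemma card_eq (P Q : ℤ → Prop) (i : DecidablePred P) (j : DecidablePred Q) (s : Finset ℤ)
    (hPQ : ∀ m, P m ↔ Q m) : (@Finset.filter ℤ P i s).card = (@Finset.filter ℤ Q j s).card := by
  have hpq : P = Q := funext fun a => propext (hPQ a)
  subst hpq
  rw [Subsingleton.elim i j]

lemma fam_lim : Tendsto (fun X : ℕ => (num (fun _ => True) X : ℝ) / (neg X : ℝ)) atTop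
    (𝓝 (45 / 128)) := by
  refine Pool.Agent.H233.X21.t_SQD.congr fun X => ?_
  unfold num neg
  congr 2
  · refine card_eq _ _ _ _ _ fun m => ?_
    exact ⟨fun h => ⟨h, trivial⟩, fun h => h.1⟩

lemma dens {M : ℕ} {a : ℤ} (hM : 0 < M) (h : ∃ m, Family m ∧ m ≡ a [ZMOD M]) :
    Tendsto (fun X : ℕ => (num (fun m => m ≡ a [ZMOD M] ∧ TwoPart m) X : ℝ) /
      (num (fun m => m ≡ a [ZMOD M]) X : ℝ)) atTop (𝓝 eta) := by
  obtain ⟨m₀, h0, ha⟩ := h
  have hper : Pool.Agent.H114.X21.Per (21 * M) (fun m => (m % 3 ≠ 1 ∧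
      (m % 7 = 0 ∨ m % 7 = 1 ∨ m % 7 = 2 ∨ m % 7 = 4)) ∧ m ≡ a [ZMOD M]) := by
    intro x y hxy
    have h1 : (21 : ℤ) ∣ x - y := by
      refine Dvd.dvd.trans ⟨M, ?_⟩ hxy
      push_cast
      ring
    have h2 : (M : ℤ) ∣ x - y := by
      refine Dvd.dvd.trans ⟨21, ?_⟩ hxy
      push_cast
      ring
    have h3 : x % 3 = y % 3 := by omega
    have h4 : x % 7 = y % 7 := by omega
    have h5 : x ≡ y [ZMOD M] := (Int.modEq_iff_dvd.2 (by
      rw [← Int.dvd_neg, neg_sub]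
      exact h2))
    show ((x % 3 ≠ 1 ∧ (x % 7 = 0 ∨ x % 7 = 1 ∨ x % 7 = 2 ∨ x % 7 = 4)) ∧ x ≡ a [ZMOD M]) ↔
      ((y % 3 ≠ 1 ∧ (y % 7 = 0 ∨ y % 7 = 1 ∨ y % 7 = 2 ∨ y % 7 = 4)) ∧ y ≡ a [ZMOD M])
    rw [h3, h4]
    exact ⟨fun h => ⟨h.1, h5.symm.trans h.2⟩, fun h => ⟨h.1, h5.trans h.2⟩⟩
  have key := Pool.Agent.H114.X21.dens (L := 21 * M) (by omega) hper h0.1 h0.2.1 ⟨h0.2.2, ha⟩
  refine key.congr fun X => ?_
  have e1 : ∀ (P Q : ℤ → Prop) (i : DecidablePred P) (j : DecidablePred Q) (s : Finset ℤ),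
      (∀ m, P m ↔ Q m) → (@Finset.filter ℤ P i s).card = (@Finset.filter ℤ Q j s).card := by
    intro P Q i j s hPQ
    have hpq : P = Q := funext fun a => propext (hPQ a)
    subst hpq
    rw [Subsingleton.elim i j]
  unfold num
  congr 2
  · refine e1 _ _ _ _ _ fun m => ?_
    constructor
    · rintro ⟨h1, h2, ⟨h3, h4⟩, h5⟩
      have hF : Family m := ⟨h1, h2, h3.1, h3.2⟩
      exact ⟨hF, h4, (two_iff hF).2 h5⟩
    · rintro ⟨hF, h4, h5⟩
      exact ⟨hF.1, hF.2.1, ⟨hF.2.2, h4⟩, (two_iff hF).1 h5⟩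
  · refine e1 _ _ _ _ _ fun m => ?_
    constructor
    · rintro ⟨h1, h2, ⟨h3, h4⟩⟩
      exact ⟨⟨h1, h2, h3.1, h3.2⟩, h4⟩
    · rintro ⟨hF, h4⟩
      exact ⟨hF.1, hF.2.1, ⟨hF.2.2, h4⟩⟩

lemma fam3 : Family (-3) := by
  refine ⟨by norm_num, ?_, by norm_num, by norm_num⟩
  rw [← Int.squarefree_natAbs]
  exact (by norm_num : Nat.Prime 3).squarefree

open Classical in
lemma num_pos {P : ℤ → Prop} (h : P (-3)) {X : ℕ} (hX : 3 ≤ X) : 0 < num P X := by
  refine Finset.card_pos.2 ⟨-3, Finset.mem_filter.2 ⟨Finset.mem_Icc.2 ⟨?_, ?_⟩, fam3, h⟩⟩ <;> omega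

lemma all_lim : Tendsto (fun X : ℕ => (num TwoPart X : ℝ) / (neg X : ℝ)) atTop
    (𝓝 (45 / 128 * eta)) := by
  have h1 := dens (M := 1) (a := 0) one_pos ⟨-3, fam3, Int.modEq_one⟩
  have h2 := (fam_lim.mul h1)
  refine h2.congr' ?_
  filter_upwards [Filter.eventually_ge_atTop 3] with X hX
  have e1 : num (fun m => m ≡ 0 [ZMOD ((1 : ℕ) : ℤ)] ∧ TwoPart m) X = num TwoPart X := by
    unfold num
    refine card_eq _ _ _ _ _ fun m => ?_
    exact ⟨fun h => ⟨h.1, h.2.2⟩, fun h => ⟨h.1, Int.modEq_one, h.2⟩⟩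
  have e2 : num (fun m => m ≡ 0 [ZMOD ((1 : ℕ) : ℤ)]) X = num (fun _ => True) X := by
    unfold num
    refine card_eq _ _ _ _ _ fun m => ?_
    exact ⟨fun h => ⟨h.1, trivial⟩, fun h => ⟨h.1, Int.modEq_one⟩⟩
  rw [e1, e2]
  have h0 : (num (fun _ => True) X : ℝ) ≠ 0 := by
    have : 0 < num (fun _ => True) X := num_pos trivial hX
    exact_mod_cast this.ne'
  rw [div_mul_div_comm, mul_comm (neg X : ℝ), mul_div_mul_left _ _ h0]

end proof

theorem result :
    -- every member of the family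
    (∀ m : ℤ, Family m →
      IsMinimal (W m) ∧ tors m = 4 ∧
      Tam (W m) = 4 ^ (R m).card * (if (3 : ℤ) ∣ m then 1 else 2) *
        (if (7 : ℤ) ∣ m then 1 else 2) ∧
      (∃ Λ : ℂ → ℂ, IsL (W m) Λ ∧ ∃ y : ℕ, anSha m (Λ 1) = (y : ℂ) ^ 2 ∧ (Odd y ↔ FinSha m)) ∧
      (FinSha m ↔ TwoPart m) ∧
      -- the criterion: no ideal class of order four in `ℚ(√m)`
      ∀ (K : Type) [Field K] [NumberField K], Module.finrank ℚ K = 2 → (∃ s : K, s ^ 2 = (m : K)) →
        (TwoPart m ↔ ∀ c : ClassGroup (𝓞 K), c ^ 4 = 1 → c ^ 2 = 1)) ∧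
    -- the natural density in every arithmetic progression which meets the family
    (∀ (M : ℕ) (a : ℤ), 0 < M → (∃ m, Family m ∧ m ≡ a [ZMOD M]) →
      Tendsto (fun X : ℕ => (num (fun m => m ≡ a [ZMOD M] ∧ TwoPart m) X : ℝ) /
        (num (fun m => m ≡ a [ZMOD M]) X : ℝ)) atTop (𝓝 eta)) ∧
    0.2887 < eta ∧ eta < 0.2889 ∧
    -- the densities in all the negative squarefree integers
    Tendsto (fun X : ℕ => (num (fun _ => True) X : ℝ) / (neg X : ℝ)) atTop (𝓝 (45 / 128)) ∧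
    Tendsto (fun X : ℕ => (num TwoPart X : ℝ) / (neg X : ℝ)) atTop (𝓝 (45 / 128 * eta)) := by
  refine ⟨fun m hm => ?_, fun M a hM h => dens hM h, Pool.Agent.N916.GB.eta_bounds.1,
    Pool.Agent.N916.GB.eta_bounds.2, fam_lim, all_lim⟩
  obtain ⟨Λ, hL, y, h2, h3, -, -⟩ := core hm
  refine ⟨min_W hm, tors_eq hm, tam_eq hm, ⟨Λ, hL, y, h2, h3⟩, ?_, ?_⟩
  · rw [fs_iff hm, two_iff hm]
  · intro K _ _ hK hs
    rw [two_iff hm]
    exact Pool.Agent.H114.X21.gm_cl hm.1 hm.2.1 (k21 hm).ne_one K hK hs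

end Pool.Agent.Results.MP_92892c_nt.TwistsX21ClassGroup
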