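import Pool.Agent.H464.XB.Lv
import Pool.Agent.H464.XB.Jnt

/-!
# The leading-term formula at the prime two for the imaginary quadratic twists of `X_0(15)`

`E_D` is the quadratic twist by `D` of `X_0(15)`, with the minimal equation
`y² + x y + y = x³ + (5 D - 1)/4 x² - (19 D² + 1)/2 x - (39 D³ + 1)/4`
(another one is `Y² = X (X + 16 D) (X + 25 D)`).  `D` is any negative squarefree number `≡ 13` or `37`
modulo `60`: these are the odd fundamental discriminants `D < 0` such that `3` splits and `5` is inert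
in `ℚ(√D)`.  There is no condition on the prime factors; `k` is the number of the prime factors of `D`.

The theorem, with no hypothesis on the rank or on `Ш`:
* the equation is minimal, the torsion subgroup of `E_D(ℚ)` has order `4` and the product of the
  Tamagawa numbers is `2 ^ (2 k + 2)`;
* `L(E_D, s)` is entire, and the order of `Ш(E_D/ℚ)` predicted by the formula (for rank `0`),
  `#E_D(ℚ)_tors² L(E_D, 1) / (Ω Tam)`, is a perfect square `y²` of an integer `y`, for EVERY `D`;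
* `4 · 2 ^ rank · #Ш(E_D/ℚ)[2] = red(D)²` for EVERY `D`, where `red(D) = 2 ^ (r + 1)` is the number of the
  divisors in the kernel of Rédei's matrix (`r` is the `4`-rank of the class group of `ℚ(√D)`);
* `y` is odd if and only if `E_D(ℚ)` is finite and `Ш(E_D/ℚ)[2^∞] = 0`, and if and only if the explicit
  criterion `Good D`, that is `r = 0`, holds;
* in this case the formula of the problem holds up to an odd factor: if `Ш(E_D/ℚ)` is finite, then
  `n L^an = m L^alg` with `m`, `n` odd;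
* the formula at `2` of the previous item (`TwoPart D`) holds exactly for the proportion `c = 0.2887...`
  of the `D`;
* for all `M` and all different positive squarefree `m_1, …, m_M ≡ 1, 49 mod 60`, and all `r_1, …, r_M`,
  the proportion of the `D` such that `2 ^ rank · #Ш[2] = 4 ^ (r_t)` for the twist by `D m_t` (`tw D m_t`
  is the squarefree part of `D m_t`), for all `t`, is exactly `law r_1 ⋯ law r_M`, where
  `law r = 2 ^ (-r²) ∏_{i ≤ r} (1 - 2^(-i))⁻¹ ∏_{i > r} (1 - 2^(-i))`; and the formula at `2` holds for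
  all the twists by the `D m_t` exactly for the proportion `c ^ M`.

Proof.  The values of the odd modular symbol in terms of a ternary form, the count of its vectors, and
the law of the kernels of Rédei's matrices are from the library (projects XV, XT, SQ, XD, XJ of run
3dad9d7b), the minimality and the generalities on twists from project H757_X15.  New here (`Pool/Agent/
H464/XB`): the reduction of the classes of cocycles to the homogeneous spaces and back (`Sel`, `Sel2`,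
`Crd`, `LG`), the sign of the Gauss sum (`Gs`), `s(1/4) = 4` for the odd symbol `s`, with the sign, by means
of the fixed points of an Atkin-Lehner involution (`Gen`, `Sgn`, `Sm`, `SmB`), the period (`Om`), the
Tamagawa numbers and the torsion points (`Bsd`, `Tors`; `TCrd`, `TamA` are copies of files of helper468),
the Gauss sum and the `L`-value (`An`, `Lv`), divisors and Rédei matrices (`Ker`, `Jnt`).
-/

set_option autoImplicit false

open Filter Topology MeasureTheory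

namespace Pool.Agent.Results.MP_92892c_nt.TwoPartImaginaryX15

open Pool.Agent.TH841.SH.D (Sha)

/-- the minimal equation of the quadratic twist by `D ≡ 1 mod 4` of `X_0(15)` -/
def W (D : ℤ) : WeierstrassCurve ℤ :=
  ⟨1, (5 * D - 1) / 4, 1, -((19 * D ^ 2 + 1) / 2), -((39 * D ^ 3 + 1) / 4)⟩

/-- the curve `E_D` over `ℚ` -/
abbrev E (D : ℤ) : WeierstrassCurve ℚ := (W D).map (Int.castRingHom ℚ)

/-- the equation is minimal: `Δ ≠ 0` and `|Δ|` is minimal among the integral equations -/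
def IsMinimal (V : WeierstrassCurve ℤ) : Prop :=
  V.Δ ≠ 0 ∧ ∀ (V' : WeierstrassCurve ℤ) (C : WeierstrassCurve.VariableChange ℚ),
    C • (V.map (Int.castRingHom ℚ)) = V'.map (Int.castRingHom ℚ) → |V.Δ| ≤ |V'.Δ|

/-- `a_p = p - #{affine points modulo p}` -/
noncomputable def ap (V : WeierstrassCurve ℤ) (p : ℕ) : ℤ :=
  p - (Nat.card {P : ZMod p × ZMod p //
    (V.map (Int.castRingHom (ZMod p))).toAffine.Equation P.1 P.2} : ℕ)

/-- `Λ` is entire and it is the Hasse-Weil L-function of the minimal equation `V` -/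
def IsL (V : WeierstrassCurve ℤ) (Λ : ℂ → ℂ) : Prop :=
  Differentiable ℂ Λ ∧ ∀ s : ℂ, 3 / 2 < s.re →
    HasProd (fun p : Nat.Primes => (1 - (ap V p : ℂ) * ((p : ℕ) : ℂ) ^ (-s) +
      (if ((p : ℕ) : ℤ) ∣ V.Δ then 0 else ((p : ℕ) : ℂ) ^ (1 - 2 * s)))⁻¹) (Λ s)

/-- `4 x³ + b₂ x² + 2 b₄ x + b₆ = (2 y + a₁ x + a₃)²` -/
noncomputable def cubic (V : WeierstrassCurve ℤ) (x : ℝ) : ℝ :=
  4 * x ^ 3 + V.b₂ * x ^ 2 + 2 * V.b₄ * x + V.b₆

/-- `Ω = ∫_{E(ℝ)} |ω|`, `ω = dx / (2 y + a₁ x + a₃)`; two real points lie over each `x` with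
`cubic x > 0` -/
noncomputable def Omega (V : WeierstrassCurve ℤ) : ℝ :=
  ∫ x in {x : ℝ | 0 < cubic V x}, 2 / Real.sqrt (cubic V x)

/-- the reduction of the point `(x, y)` modulo `p` is the singular point -/
def Sing (V : WeierstrassCurve ℤ) (p : ℕ) [Fact p.Prime] (x y : ℚ_[p]) : Prop :=
  ‖x‖ ≤ 1 ∧ ‖y‖ ≤ 1 ∧ ‖V.a₁ * y - (3 * x ^ 2 + 2 * V.a₂ * x + V.a₄)‖ < 1 ∧
    ‖2 * y + V.a₁ * x + V.a₃‖ < 1

open scoped Classical in
/-- the Tamagawa number `[E(ℚ_p) : E_0(ℚ_p)]`, `E_0(ℚ_p)` the group generated by the points with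
nonsingular reduction -/
noncomputable def tam (V : WeierstrassCurve ℤ) (p : ℕ) [Fact p.Prime] : ℕ :=
  (AddSubgroup.closure {P : (V.map (Int.castRingHom ℚ_[p])).toAffine.Point |
    ∀ (x y : ℚ_[p]) (h), P = .some x y h → ¬ Sing V p x y}).index

/-- the product of the Tamagawa numbers over the primes which divide the discriminant -/
noncomputable def Tam (V : WeierstrassCurve ℤ) : ℕ :=
  ∏ p ∈ V.Δ.natAbs.primeFactors, if h : p.Prime then (haveI := Fact.mk h; tam V p) else 1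

/-- the order of the torsion subgroup of `E_D(ℚ)` -/
noncomputable def tors (D : ℤ) : ℕ := Nat.card (AddCommGroup.torsion (E D).toAffine.Point)

/-- the rank of `E_D(ℚ)` -/
noncomputable def rank (D : ℤ) : ℕ := Module.finrank ℤ (E D).toAffine.Point

/-- the order of `Ш(E_D/ℚ)[2]` -/
noncomputable def shaTwo (D : ℤ) : ℕ := Nat.card {x : Sha (E D) // 2 • x = 0}

/-- `L^an` for rank `0`: the value `l` at `s = 1` divided by `Ω` -/
noncomputable def Lan (D : ℤ) (l : ℂ) : ℂ := l / (Omega (W D) : ℝ)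

/-- `L^alg = #Ш Tam / #E_D(ℚ)_tors²` -/
noncomputable def Lalg (D : ℤ) : ℚ := Nat.card (Sha (E D)) * Tam (W D) / (tors D : ℚ) ^ 2

/-- the order of `Ш(E_D/ℚ)` predicted by the formula for rank `0`: `#E_D(ℚ)_tors² L^an / Tam` -/
noncomputable def anSha (D : ℤ) (l : ℂ) : ℂ := Lan D l * (tors D : ℂ) ^ 2 / (Tam (W D) : ℂ)

/-- `E_D(ℚ)` is finite and the `2`-primary part of `Ш(E_D/ℚ)` is zero -/
def FinSha (D : ℤ) : Prop :=
  Finite (E D).toAffine.Point ∧ ∀ (n : ℕ) (x : Sha (E D)), 2 ^ n • x = 0 → x = 0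

/-- the family: the negative squarefree numbers `≡ 13` or `37` modulo `60` -/
def Family (D : ℤ) : Prop := D < 0 ∧ Squarefree D ∧ (D % 60 = 13 ∨ D % 60 = 37)

/-- the divisors `d > 0` of `n` in the kernel of Rédei's matrix of `ℚ(√-n)`: `(d/p) = 1` for the primes `p`
dividing `n` and not dividing `d`, `((n/d)/p) = 1` for the primes `p` dividing `d` -/
def Redei (n d : ℕ) : Prop := d ∣ n ∧
  (∀ p : ℕ, p.Prime → p ∣ n → ¬ p ∣ d → jacobiSym d p = 1) ∧
  (∀ p : ℕ, p.Prime → p ∣ d → jacobiSym ((n / d : ℕ) : ℤ) p = 1)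

/-- the number of the elements of the kernel of Rédei's matrix of `ℚ(√D)` -/
noncomputable def red (D : ℤ) : ℕ := Nat.card {d : ℕ // Redei D.natAbs d}

/-- the criterion: the kernel of Rédei's matrix consists of `1` and `|D|` -/
def Good (D : ℤ) : Prop := ∀ d : ℕ, Redei D.natAbs d → d = 1 ∨ d = D.natAbs

/-- the `2`-part of the formula, with `L(E_D, 1) ≠ 0` and no element of order two in `Ш`:
`E_D(ℚ)` is finite, `Ш(E_D/ℚ)[2^∞] = 0`, the predicted order of `Ш` is the square of an odd number, and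
`n L^an = m L^alg` for odd numbers `m`, `n` if `Ш(E_D/ℚ)` is finite -/
def TwoPart (D : ℤ) : Prop :=
  FinSha D ∧ ∃ Λ : ℂ → ℂ, IsL (W D) Λ ∧ (∃ y : ℕ, Odd y ∧ anSha D (Λ 1) = (y : ℂ) ^ 2) ∧
    (Finite (Sha (E D)) → ∃ m n : ℕ, Odd m ∧ Odd n ∧ n * Lan D (Λ 1) = m * ((Lalg D : ℚ) : ℂ))

open Classical in
/-- the number of the `D` of the family with `-X ≤ D` and the property `P` -/
noncomputable def num (P : ℤ → Prop) (X : ℕ) : ℕ :=
  ((Finset.Icc 1 X).filter fun n : ℕ => Family (-(n : ℤ)) ∧ P (-(n : ℤ))).card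

/-- the constant `(1 - 1/2) (1 - 1/4) (1 - 1/8) ⋯ = 0.2887...` -/
noncomputable def c : ℝ := ∏' i : ℕ, (1 - (1 / 2 : ℝ) ^ (i + 1))

/-- `2 ^ (-r²) ∏_{i ≤ r} (1 - 2^(-i))⁻¹ ∏_{i > r} (1 - 2^(-i))` -/
noncomputable def law (r : ℕ) : ℝ := (1 / 2 : ℝ) ^ (r ^ 2) /
  (∏ i ∈ Finset.range r, (1 - (1 / 2 : ℝ) ^ (i + 1))) * ∏' i : ℕ, (1 - (1 / 2 : ℝ) ^ (r + i + 1))

/-- the squarefree part of `D m` for squarefree `D` and `m` -/
def tw (D : ℤ) (m : ℕ) : ℤ := D * m / (Int.gcd D m : ℤ) ^ 2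

section proof

open Pool.Agent.H464.XB

lemma neg_of {D : ℤ} (hD : Family D) : T.Neg D := ⟨hD.1, hD.2.1, hD.2.2⟩

lemma tors_eq {D : ℤ} (hD : Family D) : tors D = 4 := T.tors_WD (neg_of hD)

lemma tam_eq {D : ℤ} (hD : Family D) : Tam (W D) = 2 ^ (2 * D.natAbs.primeFactors.card + 2) :=
  T.tamProd_eq (neg_of hD)

lemma sqf {D : ℤ} (hD : Family D) : Squarefree D.natAbs := Int.squarefree_natAbs.2 hD.2.1

lemma red_nx {D : ℤ} (hD : Family D) :
    Pool.Agent.NH4.XG.nx D.natAbs.primeFactors = red D := by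
  have h := hD.1
  have h2 := hD.2.2
  rw [nx_eq (sqf hD) (by omega), ← card_red (sqf hD) (by omega)]
  rfl

lemma good_iff {D : ℤ} (hD : Family D) :
    Good D ↔ Pool.Agent.NH4.XG.nx D.natAbs.primeFactors = 2 := by
  have h := hD.1
  have h2 := hD.2.2
  rw [red_nx hD]
  exact (card_two (sqf hD) (by omega)).symm

lemma fin_iff {D : ℤ} (hD : Family D) : FinSha D ↔ Good D := by
  rw [good_iff hD]
  exact T.finSha_iff (neg_of hD)

lemma odd_card {G : Type} [AddCommGroup G] [Finite G] (h : ∀ x : G, x + x = 0 → x = 0) :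
    Odd (Nat.card G) := by
  rw [← Nat.not_even_iff_odd]
  intro he
  have := Fintype.ofFinite G
  have : Fact (Nat.Prime 2) := ⟨Nat.prime_two⟩
  rw [Nat.card_eq_fintype_card] at he
  obtain ⟨x, hx⟩ := exists_prime_addOrderOf_dvd_card 2 he.two_dvd
  have h1 : x + x = 0 := by
    rw [← two_nsmul, ← hx]
    exact addOrderOf_nsmul_eq_zero x
  rw [h x h1, addOrderOf_zero] at hx
  norm_num at hx

lemma core {D : ℤ} (hD : Family D) : ∃ Λ : ℂ → ℂ, IsL (W D) Λ ∧
    ∃ y : ℕ, anSha D (Λ 1) = (y : ℂ) ^ 2 ∧ (Odd y ↔ FinSha D) ∧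
      (FinSha D → Finite (Sha (E D)) →
        ∃ m n : ℕ, Odd m ∧ Odd n ∧ n * Lan D (Λ 1) = m * ((Lalg D : ℚ) : ℂ)) := by
  obtain ⟨f, hf, hO, y, hv, hy⟩ := lval (neg_of hD)
  have hfs : Odd y ↔ FinSha D := by
    rw [hy, fin_iff hD, kr_red (sqf hD)]
    rfl
  have hOC : ((Omega (W D) : ℝ) : ℂ) ≠ 0 := by
    have : Omega (W D) ≠ 0 := hO.ne'
    exact_mod_cast this
  have ht := tors_eq hD
  have hT := tam_eq hD
  obtain ⟨k, hk⟩ : ∃ k : ℕ, k = D.natAbs.primeFactors.card := ⟨_, rfl⟩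
  rw [← hk] at hT hv
  have hLan : Lan D (f 1) = (y : ℂ) ^ 2 * 4 ^ k / 4 := by
    unfold Lan
    rw [hv, div_eq_iff hOC]
    have e : (Pool.Agent.Y700.Omega (Pool.Agent.H757_X15.WD D)) = Omega (W D) := rfl
    rw [e]
    push_cast
    ring
  have hpow : (2 : ℂ) ^ (2 * k + 2) = 4 ^ k * 4 := by
    rw [pow_add, pow_mul]
    norm_num
  have han : anSha D (f 1) = (y : ℂ) ^ 2 := by
    unfold anSha
    rw [hLan, ht, hT]
    push_cast
    rw [hpow]
    field_simp
  refine ⟨f, hf, y, han, hfs, fun hF hfin => ?_⟩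
  refine ⟨y ^ 2, Nat.card (Sha (E D)), ?_, ?_, ?_⟩
  · exact (hfs.2 hF).pow
  · exact odd_card fun x hx => hF.2 1 x (by rw [pow_one, two_nsmul]; exact hx)
  · unfold Lalg
    rw [hLan, ht, hT]
    push_cast
    rw [hpow]
    ring

lemma two_iff {D : ℤ} (hD : Family D) : TwoPart D ↔ Good D := by
  obtain ⟨Λ, hL, y, h2, h3, h5⟩ := core hD
  rw [← fin_iff hD]
  constructor
  · intro h
    exact h.1
  · intro hF
    exact ⟨hF, Λ, hL, ⟨y, h3.2 hF, h2⟩, h5 hF⟩

lemma sel {D : ℤ} (hD : Family D) : 4 * (2 ^ rank D * shaTwo D) = red D ^ 2 := by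
  have h := (T.sel_eq (neg_of hD)).2
  rw [red_nx hD] at h
  have e : 2 ^ rank D * 4 * shaTwo D = red D ^ 2 := h
  rw [← e]
  ring

lemma fam_nat (n : ℕ) (hn : 1 ≤ n) :
    Family (-(n : ℤ)) ↔ (Squarefree n ∧ (n % 60 = 23 ∨ n % 60 = 47)) := by
  unfold Family
  rw [Pool.Agent.NH3.XD.sqf_neg]
  constructor
  · rintro ⟨h1, h2, h3⟩
    exact ⟨h2, by omega⟩
  · rintro ⟨h2, h3⟩
    exact ⟨by omega, h2, by omega⟩

lemma num_cF {P : ℤ → Prop} {Q : ℕ → Prop}
    (h : ∀ n : ℕ, Family (-(n : ℤ)) → (P (-(n : ℤ)) ↔ Q n)) (X : ℕ) : num P X = cF Q X := by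
  unfold num cF
  refine Pool.Agent.NH3.XD.card_iff fun n hn => ?_
  rw [Finset.mem_Icc] at hn
  rw [← fam_nat n hn.1]
  exact and_congr_right fun hF => h n hF

lemma num_true (X : ℕ) : num (fun _ => True) X = cF (fun _ => True) X :=
  num_cF (fun _ _ => Iff.rfl) X

lemma red_nat {n : ℕ} (hF : Family (-(n : ℤ))) :
    red (-(n : ℤ)) = Pool.Agent.NH4.XJ.nx n.primeFactors := by
  have h := hF.1
  have h2 := hF.2.2
  have hs := sqf hF
  rw [Int.natAbs_neg, Int.natAbs_natCast] at hs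
  rw [← card_red hs (by omega)]
  unfold red
  rw [Int.natAbs_neg, Int.natAbs_natCast]
  rfl

lemma four_iff {D : ℤ} (hD : Family D) (r : ℕ) :
    2 ^ rank D * shaTwo D = 4 ^ r ↔ red D = 2 ^ (r + 1) := by
  have h1 := sel hD
  have e : (4 : ℕ) ^ r * 4 = (2 ^ (r + 1)) ^ 2 := by
    rw [← pow_succ, ← pow_mul, mul_comm, pow_mul]
    norm_num
  constructor
  · intro h
    rw [h, mul_comm, e] at h1
    exact (Nat.pow_left_injective (two_ne_zero) h1).symm
  · intro h
    rw [h, ← e, mul_comm] at h1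
    exact Nat.eq_of_mul_eq_mul_right (by norm_num) h1

lemma tw_fam {D : ℤ} (hD : Family D) {m : ℕ} (hm : Squarefree m ∧ (m % 60 = 1 ∨ m % 60 = 49)) :
    Family (tw D m) ∧ red (tw D m) =
      Pool.Agent.NH4.XJ.nx (symmDiff D.natAbs.primeFactors m.primeFactors) := by
  obtain ⟨n, hn⟩ : ∃ n : ℕ, n = D.natAbs := ⟨_, rfl⟩
  have hD' : D = -(n : ℤ) := by have := hD.1; omega
  have hn1 : 1 ≤ n := by have := hD.1; omega
  rw [hD'] at hD ⊢
  have h1 := (fam_nat n hn1).1 hD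
  obtain ⟨N, hN, hN1, hN2, hN3⟩ := tw_spec h1.1 h1.2 hm.1 hm.2
  have e : tw (-(n : ℤ)) m = -(N : ℤ) := hN
  have hF : Family (-(N : ℤ)) := (fam_nat N (by omega)).2 ⟨hN1, hN2⟩
  rw [e]
  refine ⟨hF, ?_⟩
  rw [red_nat hF, hN3, Int.natAbs_neg, Int.natAbs_natCast]

lemma joint_num {M : ℕ} {m : Fin M → ℕ} (hinj : Function.Injective m)
    (hm : ∀ t, Squarefree (m t) ∧ (m t % 60 = 1 ∨ m t % 60 = 49)) (r : Fin M → ℕ) (P : ℤ → Prop)
    (hP : ∀ D, Family D → (P D ↔ ∀ t, red (tw D (m t)) = 2 ^ (r t + 1))) :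
    Tendsto (fun X : ℕ => (num P X : ℝ) / (num (fun _ => True) X : ℝ))
      atTop (𝓝 (∏ t, law (r t))) := by
  refine (joint_cF hinj hm r).congr fun X => ?_
  rw [num_true, num_cF (P := P)]
  intro n hF
  rw [hP _ hF]
  refine forall_congr' fun t => ?_
  rw [(tw_fam hF (hm t)).2, Int.natAbs_neg, Int.natAbs_natCast]

lemma law_zero : law 0 = c := by
  unfold law c
  simp

lemma two_red {D : ℤ} (hD : Family D) : TwoPart D ↔ red D = 2 ^ (0 + 1) := by
  rw [two_iff hD, good_iff hD, red_nx hD]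
  norm_num

lemma prop_two : Tendsto (fun X : ℕ => (num TwoPart X : ℝ) / (num (fun _ => True) X : ℝ))
    atTop (𝓝 c) := by
  rw [← law_zero]
  refine (law_cF 0).congr fun X => ?_
  rw [num_true, num_cF (Q := fun n => Pool.Agent.NH4.XJ.nx n.primeFactors = 2 ^ (0 + 1))]
  intro n hF
  rw [two_red hF, red_nat hF]

end proof

theorem result :
    (∀ D : ℤ, Family D →
      IsMinimal (W D) ∧ tors D = 4 ∧ Tam (W D) = 2 ^ (2 * D.natAbs.primeFactors.card + 2) ∧
      (∃ Λ : ℂ → ℂ, IsL (W D) Λ ∧ ∃ y : ℕ, anSha D (Λ 1) = (y : ℂ) ^ 2 ∧ (Odd y ↔ FinSha D)) ∧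
      4 * (2 ^ rank D * shaTwo D) = red D ^ 2 ∧
      (FinSha D ↔ Good D) ∧ (TwoPart D ↔ Good D)) ∧
    Tendsto (fun X : ℕ => (num TwoPart X : ℝ) / (num (fun _ => True) X : ℝ)) atTop (𝓝 c) ∧
    (∀ (M : ℕ) (m : Fin M → ℕ), Function.Injective m →
      (∀ t, Squarefree (m t) ∧ (m t % 60 = 1 ∨ m t % 60 = 49)) →
      (∀ D : ℤ, Family D → ∀ t, Family (tw D (m t))) ∧
      (∀ r : Fin M → ℕ, Tendsto (fun X : ℕ =>
        (num (fun D => ∀ t, 2 ^ rank (tw D (m t)) * shaTwo (tw D (m t)) = 4 ^ (r t)) X : ℝ) /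
          (num (fun _ => True) X : ℝ)) atTop (𝓝 (∏ t, law (r t)))) ∧
      Tendsto (fun X : ℕ => (num (fun D => ∀ t, TwoPart (tw D (m t))) X : ℝ) /
        (num (fun _ => True) X : ℝ)) atTop (𝓝 (c ^ M))) ∧
    Tendsto (fun X : ℕ => (num (fun _ => True) X : ℝ) / X) atTop (𝓝 (5 / (16 * Real.pi ^ 2))) ∧
    0.2887 < c ∧ c < 0.2888 := by
  refine ⟨fun D hD => ?_, prop_two, fun M m hinj hm => ⟨fun D hD t => (tw_fam hD (hm t)).1, ?_, ?_⟩,
    ?_, Pool.Agent.NH5.PR.t_ETA.2.2.2⟩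
  · obtain ⟨Λ, hL, y, h2, h3, h5⟩ := core hD
    exact ⟨Pool.Agent.H464.XB.T.minimal_WD (neg_of hD), tors_eq hD, tam_eq hD,
      ⟨Λ, hL, y, h2, h3⟩, sel hD, fin_iff hD, two_iff hD⟩
  · intro r
    exact joint_num hinj hm r _ fun D hD => forall_congr' fun t =>
      four_iff (tw_fam hD (hm t)).1 (r t)
  · have h := joint_num hinj hm (fun _ => 0) (fun D => ∀ t, TwoPart (tw D (m t)))
      fun D hD => forall_congr' fun t => two_red (tw_fam hD (hm t)).1
    simpa only [law_zero, Finset.prod_const, Finset.card_univ, Fintype.card_fin] using h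
  · refine Pool.Agent.H464.XB.dens_cF.congr fun X => ?_
    rw [num_true]

end Pool.Agent.Results.MP_92892c_nt.TwoPartImaginaryX15
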