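import Pool.Agent.H468.ISG.Dens
import Pool.Agent.H468.WX.Clt

/-!
# The leading-term formula at the prime two, with `Ш[2^∞]` unbounded

`A_D : Y² = X (X² + 14 D X + 625 D²)` is the quotient of the quadratic twist `E_D` by `D` of `X_0(15)`,
`E_D : Y² = X (X - 16 D) (X + 9 D)`, by the point `(0, 0)`; only one of its points of order two is rational
and its discriminant is negative.  `D ≠ 1` is any squarefree number `≡ 1` or `49` modulo `60`, with no
condition on the prime factors; `k` is the number of the prime factors of `D` and `m` the number of those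
`≡ 3` modulo `4`.  The minimal equation is
`y² + x y + y = x³ + (5 D - 1)/4 x² + (71 D² - 1)/2 x - (111 D³ + 1)/4`.

The theorem, with no hypothesis on the rank or on `Ш`:
* the equation is minimal, the torsion subgroup of `A_D(ℚ)` has order `2` and the product of the
  Tamagawa numbers is `2 ^ (2 k + 4 - m)`;
* `L(A_D, s)` is entire (the same function as `L(E_D, s)`), and the order of `Ш(A_D/ℚ)` predicted by the
  formula for rank `0` is `2 ^ (m - 2) y²` with an integer `y`, for EVERY `D`; `y` is odd if and only if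
  the explicit criterion `Good D` holds;
* if `Good D`, then `m ≥ 2`, `A_D(ℚ)` is finite, `Ш(A_D/ℚ)[2^∞]` is killed by `2` and has the order
  `2 ^ (m - 2)`, and the formula of the problem holds up to an odd factor (and conversely);
* if `A_D(ℚ)` is finite, then `Ш(A_D/ℚ)` has at least `2 ^ (m - 2)` elements killed by `2`, for EVERY `D`;
* the `D` with `Good D` have exactly the proportion `c = (1 - 1/2) (1 - 1/4) (1 - 1/8) ⋯ = 0.2887...`, and
  the order of `Ш(A_D/ℚ)[2^∞]` satisfies a central limit theorem: for every real `y` the `D ≤ X` for which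
  all this holds and `log_2 #Ш(A_D/ℚ)[2^∞] ≤ ½ log log X + y √(½ log log X)` have the proportion `c` times the
  value at `y` of the distribution function of the standard normal law.

Proof.  The sum of the modular symbols over the quadratic character, the proportion (library, H757_X15);
the period, the point counts and the Tamagawa numbers of `A_D`, the linear algebra for the number of the
equations, the necessary local conditions (library, H487/I).  New here: the asymptotic independence of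
the criterion and the numbers of the prime factors in residue classes (`Pool/Agent/H468/WX`); the 2-isogeny descent in cohomology (`Pool/Agent/H468/ISG/Iso`, `Loc`, `Sha`, `Cnt`): the cocycles of `A_D` with
values in the kernel of `A_D → E_D` which are locally trivial, and those which are coboundaries; the local
points (`Sol`); the rational points (`Tors`); together with the full 2-descent for `E_D`
(`Pool/Agent/H468/X15S`, `Ш(E_D/ℚ)[2^∞] = 0` for `Good D`).
-/

set_option autoImplicit false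

open Filter Topology MeasureTheory ProbabilityTheory

namespace Pool.Agent.Results.MP_92892c_nt.TwoPartIsogenousX15

open Pool.Agent.TH841.SH.D (Sha)

/-- the minimal equation of `A_D : Y² = X (X² + 14 D X + 625 D²)`, `X = 4 x - 3 D`,
`Y = 4 (2 y + x + 1)` -/
def A (D : ℤ) : WeierstrassCurve ℤ :=
  ⟨1, (5 * D - 1) / 4, 1, (71 * D ^ 2 - 1) / 2, -((111 * D ^ 3 + 1) / 4)⟩

/-- the minimal equation of the quadratic twist by `D ≡ 1 mod 4` of `X_0(15)` -/
def W (D : ℤ) : WeierstrassCurve ℤ :=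
  ⟨1, (5 * D - 1) / 4, 1, -((19 * D ^ 2 + 1) / 2), -((39 * D ^ 3 + 1) / 4)⟩

/-- the curve `A_D` over `ℚ` -/
abbrev AQ (D : ℕ) : WeierstrassCurve ℚ := (A D).map (Int.castRingHom ℚ)

/-- the equation is minimal: `Δ ≠ 0` and `|Δ|` is minimal among the integral equations -/
def IsMinimal (V : WeierstrassCurve ℤ) : Prop :=
  V.Δ ≠ 0 ∧ ∀ (V' : WeierstrassCurve ℤ) (C : WeierstrassCurve.VariableChange ℚ),
    C • (V.map (Int.castRingHom ℚ)) = V'.map (Int.castRingHom ℚ) → |V.Δ| ≤ |V'.Δ|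

/-- `a_p = p - #{affine points modulo p}` -/
noncomputable def ap (V : WeierstrassCurve ℤ) (p : ℕ) : ℤ :=
  p - (Nat.card {P : ZMod p × ZMod p //
    (V.map (Int.castRingHom (ZMod p))).toAffine.Equation P.1 P.2} : ℕ)

/-- `Λ` is entire and it is the Hasse-Weil L-function of the minimal equation `V` -/
def IsL (V : WeierstrassCurve ℤ) (Λ : ℂ → ℂ) : Prop :=
  Differentiable ℂ Λ ∧ ∀ s : ℂ, 3 / 2 < s.re →
    HasProd (fun p : Nat.Primes => (1 - (ap V p : ℂ) * ((p : ℕ) : ℂ) ^ (-s) +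
      (if ((p : ℕ) : ℤ) ∣ V.Δ then 0 else ((p : ℕ) : ℂ) ^ (1 - 2 * s)))⁻¹) (Λ s)

/-- `4 x³ + b₂ x² + 2 b₄ x + b₆ = (2 y + a₁ x + a₃)²` -/
noncomputable def cubic (V : WeierstrassCurve ℤ) (x : ℝ) : ℝ :=
  4 * x ^ 3 + V.b₂ * x ^ 2 + 2 * V.b₄ * x + V.b₆

/-- `Ω = ∫_{A(ℝ)} |ω|`, `ω = dx / (2 y + a₁ x + a₃)`; two real points lie over each `x` with
`cubic x > 0` -/
noncomputable def Omega (V : WeierstrassCurve ℤ) : ℝ :=
  ∫ x in {x : ℝ | 0 < cubic V x}, 2 / Real.sqrt (cubic V x)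

/-- the reduction of the point `(x, y)` modulo `p` is the singular point -/
def Sing (V : WeierstrassCurve ℤ) (p : ℕ) [Fact p.Prime] (x y : ℚ_[p]) : Prop :=
  ‖x‖ ≤ 1 ∧ ‖y‖ ≤ 1 ∧ ‖V.a₁ * y - (3 * x ^ 2 + 2 * V.a₂ * x + V.a₄)‖ < 1 ∧
    ‖2 * y + V.a₁ * x + V.a₃‖ < 1

open scoped Classical in
/-- the Tamagawa number `[A(ℚ_p) : A_0(ℚ_p)]`, `A_0(ℚ_p)` the group generated by the points with
nonsingular reduction -/
noncomputable def tam (V : WeierstrassCurve ℤ) (p : ℕ) [Fact p.Prime] : ℕ :=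
  (AddSubgroup.closure {P : (V.map (Int.castRingHom ℚ_[p])).toAffine.Point |
    ∀ (x y : ℚ_[p]) (h), P = .some x y h → ¬ Sing V p x y}).index

/-- the product of the Tamagawa numbers over the primes which divide the discriminant -/
noncomputable def Tam (V : WeierstrassCurve ℤ) : ℕ :=
  ∏ p ∈ V.Δ.natAbs.primeFactors, if h : p.Prime then (haveI := Fact.mk h; tam V p) else 1

/-- the order of the torsion subgroup of `A_D(ℚ)` -/
noncomputable def tors (D : ℕ) : ℕ := Nat.card (AddCommGroup.torsion (AQ D).toAffine.Point)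

/-- `L^an` for rank `0`: the value `l` at `s = 1` divided by `Ω` -/
noncomputable def Lan (D : ℕ) (l : ℂ) : ℂ := l / (Omega (A D) : ℝ)

/-- `L^alg = #Ш Tam / #A_D(ℚ)_tors²` -/
noncomputable def Lalg (D : ℕ) : ℚ := Nat.card (Sha (AQ D)) * Tam (A D) / (tors D : ℚ) ^ 2

/-- the order of `Ш(A_D/ℚ)` predicted by the formula for rank `0`: `#A_D(ℚ)_tors² L^an / Tam` -/
noncomputable def anSha (D : ℕ) (l : ℂ) : ℂ := Lan D l * (tors D : ℂ) ^ 2 / (Tam (A D) : ℂ)

/-- the order of the `2`-primary part of `Ш(A_D/ℚ)` -/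
noncomputable def sha2 (D : ℕ) : ℕ := Nat.card {x : Sha (AQ D) // ∃ n : ℕ, 2 ^ n • x = 0}

/-- the number of the prime factors `≡ 3` modulo `4` -/
def m (D : ℕ) : ℕ := (D.primeFactors.filter (fun p => p % 4 = 3)).card

/-- the family: the squarefree numbers `≡ 1` or `49` modulo `60` -/
def Family (D : ℕ) : Prop := Squarefree D ∧ (D % 60 = 1 ∨ D % 60 = 49)

/-- The criterion: the only positive divisor `d` of `D` such that `(d/p) = 1` for the primes `p` dividing
`D` and not dividing `d`, `(-(D/d)/p) = 1` for the primes `p` dividing `d`, and `(d/5) = 1`, is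
`d = 1`. -/
def Good (D : ℕ) : Prop := ∀ d : ℕ, d ∣ D →
  (∀ p : ℕ, p.Prime → p ∣ D → ¬ p ∣ d → jacobiSym d p = 1) →
  (∀ p : ℕ, p.Prime → p ∣ d → jacobiSym (-((D / d : ℕ) : ℤ)) p = 1) →
  jacobiSym d 5 = 1 → d = 1

/-- the `2`-part of the formula, with `L(A_D, 1) ≠ 0`: `A_D(ℚ)` is finite, `Ш(A_D/ℚ)[2^∞]` is killed by `2`
and has the order `2 ^ (m - 2)`, the predicted order of `Ш` is this number times the square of an odd
number, and `n L^an = n' L^alg` for odd numbers `n`, `n'` if `Ш(A_D/ℚ)` is finite -/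
def TwoPart (D : ℕ) : Prop :=
  Finite (AQ D).toAffine.Point ∧ (∀ (n : ℕ) (x : Sha (AQ D)), 2 ^ n • x = 0 → 2 • x = 0) ∧
    2 ≤ m D ∧ sha2 D = 2 ^ (m D - 2) ∧
    ∃ Λ : ℂ → ℂ, IsL (A D) Λ ∧ (∃ y : ℕ, Odd y ∧ anSha D (Λ 1) = sha2 D * (y : ℂ) ^ 2) ∧
      (Finite (Sha (AQ D)) → ∃ n n' : ℕ, Odd n ∧ Odd n' ∧
        n * Lan D (Λ 1) = n' * ((Lalg D : ℚ) : ℂ))

open Classical in
/-- the number of the `D ≤ X` of the family with the property `P` -/
noncomputable def num (P : ℕ → Prop) (X : ℕ) : ℕ :=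
  ((Finset.Icc 1 X).filter fun D => Family D ∧ P D).card

/-- the constant `(1 - 1/2) (1 - 1/4) (1 - 1/8) ⋯ = 0.2887...` -/
noncomputable def c : ℝ := ∏' i : ℕ, (1 - (1 / 2 : ℝ) ^ (i + 1))

/-- `½ log log X + y √(½ log log X)` -/
noncomputable def level (y : ℝ) (X : ℕ) : ℝ :=
  1 / 2 * Real.log (Real.log X) + y * √(1 / 2 * Real.log (Real.log X))

/-- the distribution function of the standard normal law -/
noncomputable def Phi (y : ℝ) : ℝ := (gaussianReal 0 1).real (Set.Iic y)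

section proof

open Pool.Agent.H468.X15
open Pool.Agent.H468.ISG (card_tors tam_prod lfun omega_half sha_A sha_many finite_iff finite_AQ)

lemma tors_eq {D : ℕ} (hD : Family D) (h1 : D ≠ 1) : tors D = 2 := by
  have h4 : D % 4 = 1 := fm_mod4 hD.2
  exact card_tors (D := (D : ℤ)) (by omega) (by omega) (not_sq hD.1 h1)

lemma tam_eq {D : ℕ} (hD : Family D) :
    Tam (A D) * 2 ^ m D = 2 ^ (2 * D.primeFactors.card + 4) := tam_prod hD.1 hD.2

lemma omega_ne {D : ℕ} (hD : Family D) : Omega (A D) ≠ 0 ∧ Omega (W D) = 2 * Omega (A D) := by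
  have h0 : Omega (W D) = 2 * Omega (A D) := omega_half hD.1 hD.2
  refine ⟨?_, h0⟩
  obtain ⟨s, L, Op, Om, hOp, hOm, g2, g3, hL, hsym, hre⟩ := Pool.Agent.H757_X15.t_SYMB
  have hD0 := hD.1.ne_zero
  have h4 : D % 4 = 1 := fm_mod4 hD.2
  have h := Pool.Agent.H757_X15.t_OMEGA L Op Om hOp hOm g2 g3 hL (D : ℤ) (by omega) (by omega)
  have h2 : Omega (W D) = 2 * Op / Real.sqrt ((D : ℤ) : ℝ) := h
  have hsq : (0 : ℝ) < Real.sqrt ((D : ℤ) : ℝ) := by
    apply Real.sqrt_pos.2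
    have : (0 : ℤ) < D := by omega
    exact_mod_cast this
  have h3 : Omega (W D) ≠ 0 := by
    rw [h2]
    positivity
  intro h5
  rw [h5, mul_zero] at h0
  exact h3 h0

/-- the order of a finite group and of its `2`-primary part -/
lemma card_split (G : Type) [AddCommGroup G] [Finite G] :
    ∃ b : ℕ, Odd b ∧ Nat.card G = b * Nat.card {x : G // ∃ n : ℕ, 2 ^ n • x = 0} := by
  let H : AddSubgroup G :=
    { carrier := {x | ∃ n : ℕ, 2 ^ n • x = 0}
      zero_mem' := ⟨0, smul_zero _⟩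
      add_mem' := by
        rintro x y ⟨n, hn⟩ ⟨k, hk⟩
        refine ⟨n + k, ?_⟩
        have e1 : 2 ^ (n + k) • x = 0 := by rw [pow_add, mul_comm, mul_smul, hn, smul_zero]
        have e2 : 2 ^ (n + k) • y = 0 := by rw [pow_add, mul_smul, hk, smul_zero]
        rw [smul_add, e1, e2, add_zero]
      neg_mem' := by
        rintro x ⟨n, hn⟩
        exact ⟨n, by rw [smul_neg, hn, neg_zero]⟩ }
  refine ⟨Nat.card (G ⧸ H), ?_, ?_⟩
  · apply DX.odd_card
    intro q hq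
    obtain ⟨x, rfl⟩ := QuotientAddGroup.mk_surjective q
    rw [← QuotientAddGroup.mk_add, QuotientAddGroup.eq_zero_iff] at hq
    obtain ⟨n, hn⟩ := hq
    rw [QuotientAddGroup.eq_zero_iff]
    exact ⟨n + 1, by rw [pow_succ, mul_smul, two_smul]; exact hn⟩
  · exact AddSubgroup.card_eq_card_quotient_mul_card_addSubgroup H

lemma core {D : ℕ} (hD : Family D) (h1 : D ≠ 1) : ∃ Λ : ℂ → ℂ, IsL (A D) Λ ∧ IsL (W D) Λ ∧
    ∃ y : ℕ, 4 * anSha D (Λ 1) = 2 ^ m D * (y : ℂ) ^ 2 ∧ (Odd y ↔ Good D) ∧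
      anSha D (Λ 1) * (Tam (A D) : ℂ) = 4 * Lan D (Λ 1) := by
  obtain ⟨f, hf, y, hv, hy⟩ := lval hD.1 hD.2 h1
  have hfA : IsL (A D) f := lfun hD.1 hD.2 hf
  obtain ⟨hO, hOW⟩ := omega_ne hD
  have hOC : ((Omega (A D) : ℝ) : ℂ) ≠ 0 := by exact_mod_cast hO
  have ht := tors_eq hD h1
  have hT := tam_eq hD
  obtain ⟨k, hk⟩ : ∃ k : ℕ, k = D.primeFactors.card := ⟨_, rfl⟩
  rw [← hk] at hT hv
  have hLan : Lan D (f 1) = (y : ℂ) ^ 2 * 4 ^ k := by
    unfold Lan
    rw [hv, div_eq_iff hOC]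
    have e : (Pool.Agent.Y700.Omega (Pool.Agent.H757_X15.WD D)) = 2 * Omega (A D) := hOW
    rw [e]
    push_cast
    ring
  have hpow : (2 : ℂ) ^ (2 * k + 4) = 4 ^ k * 16 := by
    rw [pow_add, pow_mul]
    norm_num
  have hTC : (Tam (A D) : ℂ) * 2 ^ m D = 4 ^ k * 16 := by
    rw [← hpow]
    exact_mod_cast hT
  have hT0 : (Tam (A D) : ℂ) ≠ 0 := by
    intro h0
    rw [h0, zero_mul] at hTC
    have : (4 : ℂ) ^ k * 16 ≠ 0 := mul_ne_zero (pow_ne_zero _ (by norm_num)) (by norm_num)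
    exact this hTC.symm
  have han : 4 * anSha D (f 1) = 2 ^ m D * (y : ℂ) ^ 2 := by
    unfold anSha
    rw [hLan, ht]
    push_cast
    field_simp
    linear_combination (-(y : ℂ) ^ 2) * hTC
  refine ⟨f, hfA, hf, y, han, hy, ?_⟩
  unfold anSha
  rw [ht]
  push_cast
  field_simp
  ring

lemma two_of_good {D : ℕ} (hD : Family D) (h1 : D ≠ 1) (hG : Good D) : TwoPart D := by
  obtain ⟨Λ, hL, -, y, h2, h3, h4⟩ := core hD h1
  obtain ⟨k1, k2, k3⟩ := sha_A hD.1 hD.2 h1 hG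
  have hM : ((D : ℕ) : ℤ) % 4 = 1 := by have := fm_mod4 hD.2; omega
  have hD0 : ((D : ℕ) : ℤ) ≠ 0 := by exact_mod_cast hD.1.ne_zero
  have hs : sha2 D = 2 ^ (m D - 2) := k3
  have hm : 2 ≤ m D := k1
  have hpw : (2 : ℂ) ^ m D = 4 * 2 ^ (m D - 2) := by
    have : m D = 2 + (m D - 2) := by omega
    nth_rw 1 [this]
    rw [pow_add]
    norm_num
  have hsC : ((sha2 D : ℕ) : ℂ) = 2 ^ (m D - 2) := by rw [hs]; push_cast; rfl
  have han : anSha D (Λ 1) = sha2 D * (y : ℂ) ^ 2 := by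
    rw [hsC]
    rw [hpw] at h2
    linear_combination h2 / 4
  refine ⟨finite_AQ hM hD0 ((finSha_iff hD.1 hD.2 h1).2 hG).1, k2, hm, hs, Λ, hL,
    ⟨y, h3.2 hG, han⟩, fun hfin => ?_⟩
  obtain ⟨b, hb, hcard⟩ := card_split (Sha (AQ D))
  refine ⟨b, y ^ 2, hb, (h3.2 hG).pow, ?_⟩
  have ht := tors_eq hD h1
  have hc : Nat.card (Sha (AQ D)) = b * sha2 D := hcard
  unfold Lalg
  rw [hc, ht]
  push_cast
  linear_combination (-(b : ℂ) / 4) * h4 + ((b : ℂ) * Tam (A D) / 4) * han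

lemma good_of_two {D : ℕ} (hD : Family D) (h1 : D ≠ 1) (hT : TwoPart D) : Good D := by
  obtain ⟨Λ, hL, -, y, h2, h3, -⟩ := core hD h1
  obtain ⟨-, -, hm, hs, Λ', hL', ⟨y', hy', h4⟩, -⟩ := hT
  have e : Λ' = Λ := Pool.Agent.H468.ISG.L_uniq hL' hL
  rw [e] at h4
  have hpw : (2 : ℂ) ^ m D = 4 * 2 ^ (m D - 2) := by
    have : m D = 2 + (m D - 2) := by omega
    nth_rw 1 [this]
    rw [pow_add]
    norm_num
  have hsC : ((sha2 D : ℕ) : ℂ) = 2 ^ (m D - 2) := by rw [hs]; push_cast; rfl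
  rw [h4, hsC, hpw] at h2
  have hne : (4 : ℂ) * 2 ^ (m D - 2) ≠ 0 := mul_ne_zero (by norm_num) (pow_ne_zero _ (by norm_num))
  have h5 : (y' : ℂ) ^ 2 = (y : ℂ) ^ 2 := by
    apply mul_left_cancel₀ hne
    linear_combination h2
  have h6 : y' ^ 2 = y ^ 2 := by exact_mod_cast h5
  have h7 : y' = y := Nat.pow_left_injective (n := 2) (by norm_num) h6
  exact h3.1 (h7 ▸ hy')

end proof

theorem result :
    (∀ D : ℕ, Family D → D ≠ 1 →
      IsMinimal (A D) ∧ tors D = 2 ∧ Tam (A D) * 2 ^ m D = 2 ^ (2 * D.primeFactors.card + 4) ∧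
      (∃ Λ : ℂ → ℂ, IsL (A D) Λ ∧ IsL (W D) Λ ∧
        ∃ y : ℕ, 4 * anSha D (Λ 1) = 2 ^ m D * (y : ℂ) ^ 2 ∧ (Odd y ↔ Good D)) ∧
      (TwoPart D ↔ Good D) ∧
      (Finite (AQ D).toAffine.Point →
        ∃ S : Finset (Sha (AQ D)), (∀ x ∈ S, 2 • x = 0) ∧ 2 ^ m D ≤ 4 * S.card)) ∧
    Tendsto (fun X : ℕ => (num TwoPart X : ℝ) / (num (fun _ => True) X : ℝ)) atTop (𝓝 c) ∧
    (∀ y : ℝ, Tendsto (fun X : ℕ => (num (fun D => TwoPart D ∧ Real.logb 2 (sha2 D) ≤ level y X) X : ℝ) /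
      (num (fun _ => True) X : ℝ)) atTop (𝓝 (c * Phi y))) ∧
    Tendsto (fun X : ℕ => (num (fun _ => True) X : ℝ) / X) atTop (𝓝 (5 / (16 * Real.pi ^ 2))) ∧
    0.2887 < c ∧ c < 0.2888 := by
  have hprop : Tendsto (fun X : ℕ => (num TwoPart X : ℝ) / (num (fun _ => True) X : ℝ)) atTop
      (𝓝 c) := Pool.Agent.H468.X15.DX.prop_of fun D hD h1 =>
        ⟨good_of_two hD h1, two_of_good hD h1⟩
  refine ⟨fun D hD h1 => ?_, hprop, fun y => ?_, Pool.Agent.H468.X15.DX.dens,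
    Pool.Agent.H468.X15.DX.c_bounds⟩
  · obtain ⟨Λ, hL, hW, y, h2, h3, -⟩ := core hD h1
    have hM : ((D : ℕ) : ℤ) % 4 = 1 := by have := Pool.Agent.H468.X15.fm_mod4 hD.2; omega
    have hD0 : ((D : ℕ) : ℤ) ≠ 0 := by exact_mod_cast hD.1.ne_zero
    refine ⟨Pool.Agent.H487.I.M.min_AD hD.1 hD.2, tors_eq hD h1, tam_eq hD, ⟨Λ, hL, hW, y, h2, h3⟩,
      ⟨good_of_two hD h1, two_of_good hD h1⟩, fun hf => ?_⟩
    exact Pool.Agent.H468.ISG.sha_many hD.1 hD.2 h1 ((Pool.Agent.H468.ISG.finite_iff hM hD0).1 hf)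
  · have hlog : ∀ D : ℕ, TwoPart D → Real.logb 2 (sha2 D) = (m D : ℝ) - 2 := by
      intro D hD
      obtain ⟨-, -, hm, hs, -⟩ := hD
      rw [hs]
      push_cast
      rw [← Real.rpow_natCast, Real.logb_rpow (by norm_num) (by norm_num)]
      push_cast [Nat.cast_sub hm]
      ring
    refine Pool.Agent.H468.WX.clt Pool.Agent.H468.WX.ef_om3 Pool.Agent.H468.WX.cf_om3
      (F := fun T D => TwoPart D ∧ Real.logb 2 (sha2 D) ≤ T) (fun T D hD h1 hC hT => ?_)
      (fun T D hD h1 h => ?_) y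
    · have h2 : TwoPart D := two_of_good hD h1 hC
      refine ⟨h2, ?_⟩
      rw [hlog D h2]
      have h3 : (m D : ℝ) ≤ T := hT
      linarith
    · refine ⟨good_of_two hD h1 h.1, ?_⟩
      have h3 := h.2
      rw [hlog D h.1] at h3
      show (m D : ℝ) ≤ T + 2
      linarith

end Pool.Agent.Results.MP_92892c_nt.TwoPartIsogenousX15
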