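import Pool.Agent.H468.X15T.Dens

/-!
# The leading-term formula at the prime two for the quadratic twists of `X_0(15)`

`E_D` is the quadratic twist by `D` of `X_0(15)`, with the minimal equation
`y² + x y + y = x³ + (5 D - 1)/4 x² - (19 D² + 1)/2 x - (39 D³ + 1)/4`
(another one is `Y² = X (X + 16 D) (X + 25 D)`).  `D ≠ 1` is any squarefree number `≡ 1` or `49`
modulo `60`, with no condition on the prime factors; `k` is the number of the prime factors of `D`.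

The theorem, with no hypothesis on the rank or on `Ш`:
* the equation is minimal, the torsion subgroup of `E_D(ℚ)` has order `4` and the product of the
  Tamagawa numbers is `2 ^ (2 k + 3)`;
* `L(E_D, s)` is entire, and the order of `Ш(E_D/ℚ)` predicted by the formula (for rank `0`),
  `#E_D(ℚ)_tors² L(E_D, 1) / (Ω Tam)`, is a perfect square `y²` of an integer `y`, for EVERY `D`;
* `y` is odd if and only if `E_D(ℚ)` is finite and `Ш(E_D/ℚ)[2^∞] = 0`, and if and only if the explicit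
  criterion `Good D` holds;
* in this case the formula of the problem holds up to an odd factor: if `Ш(E_D/ℚ)` is finite, then
  `n L^an = m L^alg` with `m`, `n` odd;
* this case has exactly the proportion `c = (1 - 1/2) (1 - 1/4) (1 - 1/8) ⋯ = 0.2887...` in the family.

Proof.  The sum of the modular symbols over the quadratic character is `s(0) 4^(k+1) y²`, `y` odd iff
`Good D`, and the proportion of the `D` with `Good D`: `Pool/Graph/.../H757_X15` (helper757).  New here: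
the sign of the quadratic Gauss sum (`X15T/GsA`, `GsB`), `L(E, 1) = Ω / 8` for `E = X_0(15)`
(`X15T/Per`), the Tamagawa numbers at `3`, `5` and at the primes which divide `D` (`X15T/TamA`, `TamB`),
the torsion points (`X15T/Tors`), the 2-descent and its converse (`Pool/Agent/H468/X15`, `X15S`).
-/

set_option autoImplicit false

open Filter Topology MeasureTheory

namespace Pool.Agent.Results.MP_92892c_nt.TwoPartX15

open Pool.Agent.TH841.SH.D (Sha)

/-- the minimal equation of the quadratic twist by `D ≡ 1 mod 4` of `X_0(15)` -/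
def W (D : ℤ) : WeierstrassCurve ℤ :=
  ⟨1, (5 * D - 1) / 4, 1, -((19 * D ^ 2 + 1) / 2), -((39 * D ^ 3 + 1) / 4)⟩

/-- the curve `E_D` over `ℚ` -/
abbrev E (D : ℕ) : WeierstrassCurve ℚ := (W D).map (Int.castRingHom ℚ)

/-- the equation is minimal: `Δ ≠ 0` and `|Δ|` is minimal among the integral equations -/
def IsMinimal (V : WeierstrassCurve ℤ) : Prop :=
  V.Δ ≠ 0 ∧ ∀ (V' : WeierstrassCurve ℤ) (C : WeierstrassCurve.VariableChange ℚ),
    C • (V.map (Int.castRingHom ℚ)) = V'.map (Int.castRingHom ℚ) → |V.Δ| ≤ |V'.Δ|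

/-- `a_p = p - #{affine points modulo p}` -/
noncomputable def ap (V : WeierstrassCurve ℤ) (p : ℕ) : ℤ :=
  p - (Nat.card {P : ZMod p × ZMod p //
    (V.map (Int.castRingHom (ZMod p))).toAffine.Equation P.1 P.2} : ℕ)

/-- `Λ` is entire and it is the Hasse-Weil L-function of the minimal equation `V` -/
def IsL (V : WeierstrassCurve ℤ) (Λ : ℂ → ℂ) : Prop :=
  Differentiable ℂ Λ ∧ ∀ s : ℂ, 3 / 2 < s.re →
    HasProd (fun p : Nat.Primes => (1 - (ap V p : ℂ) * ((p : ℕ) : ℂ) ^ (-s) +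
      (if ((p : ℕ) : ℤ) ∣ V.Δ then 0 else ((p : ℕ) : ℂ) ^ (1 - 2 * s)))⁻¹) (Λ s)

/-- `4 x³ + b₂ x² + 2 b₄ x + b₆ = (2 y + a₁ x + a₃)²` -/
noncomputable def cubic (V : WeierstrassCurve ℤ) (x : ℝ) : ℝ :=
  4 * x ^ 3 + V.b₂ * x ^ 2 + 2 * V.b₄ * x + V.b₆

/-- `Ω = ∫_{E(ℝ)} |ω|`, `ω = dx / (2 y + a₁ x + a₃)`; two real points lie over each `x` with
`cubic x > 0` -/
noncomputable def Omega (V : WeierstrassCurve ℤ) : ℝ :=
  ∫ x in {x : ℝ | 0 < cubic V x}, 2 / Real.sqrt (cubic V x)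

/-- the reduction of the point `(x, y)` modulo `p` is the singular point -/
def Sing (V : WeierstrassCurve ℤ) (p : ℕ) [Fact p.Prime] (x y : ℚ_[p]) : Prop :=
  ‖x‖ ≤ 1 ∧ ‖y‖ ≤ 1 ∧ ‖V.a₁ * y - (3 * x ^ 2 + 2 * V.a₂ * x + V.a₄)‖ < 1 ∧
    ‖2 * y + V.a₁ * x + V.a₃‖ < 1

open scoped Classical in
/-- the Tamagawa number `[E(ℚ_p) : E_0(ℚ_p)]`, `E_0(ℚ_p)` the group generated by the points with
nonsingular reduction -/
noncomputable def tam (V : WeierstrassCurve ℤ) (p : ℕ) [Fact p.Prime] : ℕ :=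
  (AddSubgroup.closure {P : (V.map (Int.castRingHom ℚ_[p])).toAffine.Point |
    ∀ (x y : ℚ_[p]) (h), P = .some x y h → ¬ Sing V p x y}).index

/-- the product of the Tamagawa numbers over the primes which divide the discriminant -/
noncomputable def Tam (V : WeierstrassCurve ℤ) : ℕ :=
  ∏ p ∈ V.Δ.natAbs.primeFactors, if h : p.Prime then (haveI := Fact.mk h; tam V p) else 1

/-- the order of the torsion subgroup of `E_D(ℚ)` -/
noncomputable def tors (D : ℕ) : ℕ := Nat.card (AddCommGroup.torsion (E D).toAffine.Point)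

/-- `L^an` for rank `0`: the value `l` at `s = 1` divided by `Ω` -/
noncomputable def Lan (D : ℕ) (l : ℂ) : ℂ := l / (Omega (W D) : ℝ)

/-- `L^alg = #Ш Tam / #E_D(ℚ)_tors²` -/
noncomputable def Lalg (D : ℕ) : ℚ := Nat.card (Sha (E D)) * Tam (W D) / (tors D : ℚ) ^ 2

/-- the order of `Ш(E_D/ℚ)` predicted by the formula for rank `0`: `#E_D(ℚ)_tors² L^an / Tam` -/
noncomputable def anSha (D : ℕ) (l : ℂ) : ℂ := Lan D l * (tors D : ℂ) ^ 2 / (Tam (W D) : ℂ)

/-- `E_D(ℚ)` is finite and the `2`-primary part of `Ш(E_D/ℚ)` is zero -/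
def FinSha (D : ℕ) : Prop :=
  Finite (E D).toAffine.Point ∧ ∀ (n : ℕ) (x : Sha (E D)), 2 ^ n • x = 0 → x = 0

/-- the family: the squarefree numbers `≡ 1` or `49` modulo `60` -/
def Family (D : ℕ) : Prop := Squarefree D ∧ (D % 60 = 1 ∨ D % 60 = 49)

/-- The criterion: the only positive divisor `d` of `D` such that `(d/p) = 1` for the primes `p` dividing
`D` and not dividing `d`, `(-(D/d)/p) = 1` for the primes `p` dividing `d`, and `(d/5) = 1`, is
`d = 1`. -/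
def Good (D : ℕ) : Prop := ∀ d : ℕ, d ∣ D →
  (∀ p : ℕ, p.Prime → p ∣ D → ¬ p ∣ d → jacobiSym d p = 1) →
  (∀ p : ℕ, p.Prime → p ∣ d → jacobiSym (-((D / d : ℕ) : ℤ)) p = 1) →
  jacobiSym d 5 = 1 → d = 1

/-- the `2`-part of the formula, with `L(E_D, 1) ≠ 0` and no element of order two in `Ш`:
`E_D(ℚ)` is finite, `Ш(E_D/ℚ)[2^∞] = 0`, the predicted order of `Ш` is the square of an odd number, and
`n L^an = m L^alg` for odd numbers `m`, `n` if `Ш(E_D/ℚ)` is finite -/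
def TwoPart (D : ℕ) : Prop :=
  FinSha D ∧ ∃ Λ : ℂ → ℂ, IsL (W D) Λ ∧ (∃ y : ℕ, Odd y ∧ anSha D (Λ 1) = (y : ℂ) ^ 2) ∧
    (Finite (Sha (E D)) → ∃ m n : ℕ, Odd m ∧ Odd n ∧ n * Lan D (Λ 1) = m * ((Lalg D : ℚ) : ℂ))

open Classical in
/-- the number of the `D ≤ X` of the family with the property `P` -/
noncomputable def num (P : ℕ → Prop) (X : ℕ) : ℕ :=
  ((Finset.Icc 1 X).filter fun D => Family D ∧ P D).card

/-- the constant `(1 - 1/2) (1 - 1/4) (1 - 1/8) ⋯ = 0.2887...` -/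
noncomputable def c : ℝ := ∏' i : ℕ, (1 - (1 / 2 : ℝ) ^ (i + 1))

section proof

open Pool.Agent.H468.X15

lemma tors_eq {D : ℕ} (hD : Family D) (h1 : D ≠ 1) : tors D = 4 := tors_WD hD.1 hD.2 h1

lemma tam_eq {D : ℕ} (hD : Family D) : Tam (W D) = 2 ^ (2 * D.primeFactors.card + 3) :=
  tamProd_eq hD.1 hD.2

lemma omega_ne (D : ℕ) (hD : Family D) : Omega (W D) ≠ 0 := by
  obtain ⟨s, L, Op, Om, hOp, hOm, g2, g3, hL, hsym, hre⟩ := Pool.Agent.H757_X15.t_SYMB
  have hD0 := hD.1.ne_zero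
  have h4 : D % 4 = 1 := fm_mod4 hD.2
  have h := Pool.Agent.H757_X15.t_OMEGA L Op Om hOp hOm g2 g3 hL (D : ℤ) (by omega) (by omega)
  have h2 : Omega (W D) = 2 * Op / Real.sqrt ((D : ℤ) : ℝ) := h
  have hsq : (0 : ℝ) < Real.sqrt ((D : ℤ) : ℝ) := by
    apply Real.sqrt_pos.2
    have : (0 : ℤ) < D := by omega
    exact_mod_cast this
  rw [h2]
  positivity

lemma core {D : ℕ} (hD : Family D) (h1 : D ≠ 1) : ∃ Λ : ℂ → ℂ, IsL (W D) Λ ∧
    ∃ y : ℕ, anSha D (Λ 1) = (y : ℂ) ^ 2 ∧ (Odd y ↔ FinSha D) ∧ (FinSha D ↔ Good D) ∧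
      (FinSha D → Finite (Sha (E D)) →
        ∃ m n : ℕ, Odd m ∧ Odd n ∧ n * Lan D (Λ 1) = m * ((Lalg D : ℚ) : ℂ)) := by
  obtain ⟨f, hf, y, hv, hy⟩ := lval hD.1 hD.2 h1
  have hfs : FinSha D ↔ Good D := finSha_iff hD.1 hD.2 h1
  have hO := omega_ne D hD
  have hOC : ((Omega (W D) : ℝ) : ℂ) ≠ 0 := by exact_mod_cast hO
  have ht := tors_eq hD h1
  have hT := tam_eq hD
  obtain ⟨k, hk⟩ : ∃ k : ℕ, k = D.primeFactors.card := ⟨_, rfl⟩
  rw [← hk] at hT hv
  have hLan : Lan D (f 1) = (y : ℂ) ^ 2 * 4 ^ k / 2 := by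
    unfold Lan
    rw [hv, div_eq_iff hOC]
    have e : (Pool.Agent.Y700.Omega (Pool.Agent.H757_X15.WD D)) = Omega (W D) := rfl
    rw [e]
    push_cast
    ring
  have hpow : (2 : ℂ) ^ (2 * k + 3) = 4 ^ k * 8 := by
    rw [pow_add, pow_mul]
    norm_num
  have han : anSha D (f 1) = (y : ℂ) ^ 2 := by
    unfold anSha
    rw [hLan, ht, hT]
    push_cast
    rw [hpow]
    field_simp
    ring
  refine ⟨f, hf, y, han, hy.trans hfs.symm, hfs, fun hF hfin => ?_⟩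
  refine ⟨y ^ 2, Nat.card (Sha (E D)), ?_, ?_, ?_⟩
  · exact ((hy.trans hfs.symm).2 hF).pow
  · exact DX.odd_card fun x hx => hF.2 1 x (by rw [pow_one, two_nsmul]; exact hx)
  · unfold Lalg
    rw [hLan, ht, hT]
    push_cast
    rw [hpow]
    ring

lemma two_iff {D : ℕ} (hD : Family D) (h1 : D ≠ 1) : TwoPart D ↔ Good D := by
  obtain ⟨Λ, hL, y, h2, h3, h4, h5⟩ := core hD h1
  constructor
  · intro h
    exact h4.1 h.1
  · intro h
    have hF := h4.2 h
    exact ⟨hF, Λ, hL, ⟨y, h3.2 hF, h2⟩, h5 hF⟩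

end proof

theorem result :
    (∀ D : ℕ, Family D → D ≠ 1 →
      IsMinimal (W D) ∧ tors D = 4 ∧ Tam (W D) = 2 ^ (2 * D.primeFactors.card + 3) ∧
      (∃ Λ : ℂ → ℂ, IsL (W D) Λ ∧ ∃ y : ℕ, anSha D (Λ 1) = (y : ℂ) ^ 2 ∧ (Odd y ↔ FinSha D)) ∧
      (FinSha D ↔ Good D) ∧ (TwoPart D ↔ Good D)) ∧
    Tendsto (fun X : ℕ => (num TwoPart X : ℝ) / (num (fun _ => True) X : ℝ)) atTop (𝓝 c) ∧
    Tendsto (fun X : ℕ => (num (fun _ => True) X : ℝ) / X) atTop (𝓝 (5 / (16 * Real.pi ^ 2))) ∧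
    0.2887 < c ∧ c < 0.2888 := by
  refine ⟨fun D hD h1 => ?_, ?_, Pool.Agent.H468.X15.DX.dens, Pool.Agent.H468.X15.DX.c_bounds⟩
  · obtain ⟨Λ, hL, y, h2, h3, h4, h5⟩ := core hD h1
    exact ⟨Pool.Agent.H468.X15.minimal_WD hD.1 hD.2, tors_eq hD h1, tam_eq hD, ⟨Λ, hL, y, h2, h3⟩, h4,
      two_iff hD h1⟩
  · exact Pool.Agent.H468.X15.DX.prop_of fun D hD h1 => two_iff hD h1

end Pool.Agent.Results.MP_92892c_nt.TwoPartX15
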